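import Mathlib
import Pool.Agent.Lib.MP_523de7_an.Defs
import Pool.Agent.Lib.MP_523de7_an.Count
import Pool.Agent.Lib.MP_523de7_an.Growth

/-!
# MP_523de7_an: positive lower growth rate and zero Hausdorff dimension

The statement of Q1 is false.  Let `β = 1.8885188...` be the root of
`X⁵ - X⁴ - X³ - X² - 1` in `(1, 2)` and let `x` be the number with expansion
`v^{q_0} b v^{q_1} b v^{q_2} b ...`, where `v = 00110101`, `b = 11101`, `q_j = 2^j + 4`.

Every other expansion of `x` leaves this one just before some `b`, then (during one phase) runs
through a loop in which the words `10001011` and `01111111`, of equal value, can be chosen freely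
`q_j - 1` times, and after the next `b` it ends in a regime in which all digits are forced.  So
the set of expansions is countable, but the number of `k`-prefixes grows exponentially.  The
analysis of all expansions is a finite check on the differences
`∑ (a_i - ε_i) β^{n-i} ∈ ℤ[β]`.
-/

noncomputable section

namespace Pool.Agent.Results.MP_523de7_an.CountableExpansions

open Pool.Agent.MP_523de7_an

/-- There are `β ∈ (1, 2)` and `x ∈ I_β = [0, 1/(β-1)]` whose prefix counts have positive lower
growth rate, while `Σ_β(x)` is countable and so has Hausdorff dimension `0`. -/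
theorem result : ∃ β x : ℝ, 1 < β ∧ β < 2 ∧ 0 ≤ x ∧ x ≤ 1 / (β - 1) ∧
    0 < lowerGrowth β x ∧ (expansions β x).Countable ∧ dimH (expansions β x) = 0 := by
  obtain ⟨β, hg⟩ := exists_good
  have h2 : β < 2 := by
    have := hg.hi
    norm_num at this
    linarith
  exact ⟨β, bval β aD, hg.one_lt, h2, bval_nonneg hg.one_lt _, bval_le hg.one_lt _,
    lowerGrowth_pos hg, countable_expansions hg, (countable_expansions hg).dimH_zero⟩

end Pool.Agent.Results.MP_523de7_an.CountableExpansions
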